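import Pool.Agent.Lib.MP_a60258_s6.Iface

/-! Module TRI: the third moment of even order, only the triangle. -/

open MvPolynomial Finset

set_option linter.unusedSectionVars false

namespace A602.S6.H24

section General

variable {V : Type} [Fintype V] [DecidableEq V] {S : Finset ℕ}

lemma rem_replicate (e : V × V) : ∀ (n : ℕ) (l : List (V × V)) (d : V → ℕ),
    rem (List.replicate n e ++ l) d = rem l fun u => if u = e.1 ∨ u = e.2 then d u - n else d u
  | 0, l, d => by
      simp
  | n + 1, l, d => by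
      rw [List.replicate_succ, List.cons_append, rem, rem_replicate e n]
      congr 1
      funext u
      split_ifs
      · omega
      · rfl

end General

variable {S : Finset ℕ}

/-- split off the right triple -/
lemma val_left : ∀ (l : List (Fin 3 × Fin 3)) (d : Fin 3 → ℕ) (Q Q' : Fin 3 → R),
    (∀ u, Cha S (d u) (Q u)) → (∀ u, rem l d u = 0) →
    val S (l.map (Prod.map inl inl)) (app Q Q') = val S l Q * E (∏ u, Q' u)
  | [], d, Q, Q', hQ, h => by
      simp only [rem] at h
      have h1 : ∀ u, ∃ c, Q u = C c := fun u => by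
        have := hQ u
        rwa [h u] at this
      choose c hc using h1
      simp only [List.map_nil, val]
      have h2 : (∏ u : Fin 6, app Q Q' u) = (∏ u, Q u) * ∏ u, Q' u := by
        rw [show (∏ u : Fin 6, app Q Q' u) = ∏ u : Fin (3 + 3), app Q Q' u from rfl,
          Fin.prod_univ_add]
        congr 1
      rw [h2]
      have h3 : (∏ u, Q u) = C (∏ u, c u) := by
        rw [map_prod]
        exact Finset.prod_congr rfl fun u _ => hc u
      rw [h3, ← smul_eq_C_mul, map_smul, smul_eq_mul, E_C]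
  | e :: l, d, Q, Q', hQ, h => by
      simp only [List.map_cons, val]
      rw [Finset.sum_mul]
      refine Finset.sum_congr rfl fun j _ => ?_
      rw [dE_left, val_left l _ _ Q' (cha_dE hQ e j) h]

/-- the state sum on three vertices -/
noncomputable def St (S : Finset ℕ) (P : R) (a b c : ℕ) : ℝ :=
  val S (List.replicate a ((0 : Fin 3), (1 : Fin 3)) ++ (List.replicate b (0, 2)
    ++ List.replicate c (1, 2))) fun _ => P

lemma rem_st (a b c : ℕ) (d : Fin 3 → ℕ) :
    rem (List.replicate a ((0 : Fin 3), (1 : Fin 3)) ++ (List.replicate b (0, 2)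
      ++ List.replicate c (1, 2))) d = ![d 0 - a - b, d 1 - a - c, d 2 - b - c] := by
  rw [rem_replicate, rem_replicate, ← List.append_nil (List.replicate c ((1 : Fin 3), (2 : Fin 3))),
    rem_replicate, rem]
  funext u
  fin_cases u <;> simp [Fin.ext_iff]

lemma st_succ_a (P : R) (a b c : ℕ) : val S ((0, 1) :: (List.replicate a ((0 : Fin 3), (1 : Fin 3))
    ++ (List.replicate b (0, 2) ++ List.replicate c (1, 2)))) (fun _ => P) = St S P (a + 1) b c := rfl

lemma st_succ_b (P : R) (a b c : ℕ) : val S ((0, 2) :: (List.replicate a ((0 : Fin 3), (1 : Fin 3))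
    ++ (List.replicate b (0, 2) ++ List.replicate c (1, 2)))) (fun _ => P) = St S P a (b + 1) c := by
  unfold St
  refine val_perm ?_ _
  rw [List.replicate_succ (n := b), List.cons_append]
  exact (List.perm_middle).symm

lemma st_succ_c (P : R) (a b c : ℕ) : val S ((1, 2) :: (List.replicate a ((0 : Fin 3), (1 : Fin 3))
    ++ (List.replicate b (0, 2) ++ List.replicate c (1, 2)))) (fun _ => P) = St S P a b (c + 1) := by
  unfold St
  refine val_perm ?_ _
  rw [List.replicate_succ (n := c), ← List.append_assoc, ← List.append_assoc]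
  exact (List.perm_middle).symm

lemma er0 : (Finset.univ.erase (0 : Fin 3)) = {1, 2} := by decide
lemma er1 : (Finset.univ.erase (1 : Fin 3)) = {0, 2} := by decide
lemma er2 : (Finset.univ.erase (2 : Fin 3)) = {0, 1} := by decide

lemma rule0 {q : ℕ} {P : R} (hP : Cha S (2 * q) P) (a b c : ℕ) :
    ((2 * q - a - b : ℕ) : ℝ) * St S P a b c = St S P (a + 1) b c + St S P a (b + 1) c := by
  have h := val_rule (S := S) (List.replicate a ((0 : Fin 3), (1 : Fin 3)) ++ (List.replicate b (0, 2)
    ++ List.replicate c (1, 2))) (d := fun _ => 2 * q) (Q := fun _ => P) (fun _ => hP) 0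
  rw [rem_st, er0, Finset.sum_pair (by decide), st_succ_a, st_succ_b] at h
  exact h

lemma rule1 {q : ℕ} {P : R} (hP : Cha S (2 * q) P) (a b c : ℕ) :
    ((2 * q - a - c : ℕ) : ℝ) * St S P a b c = St S P (a + 1) b c + St S P a b (c + 1) := by
  have h := val_rule (S := S) (List.replicate a ((0 : Fin 3), (1 : Fin 3)) ++ (List.replicate b (0, 2)
    ++ List.replicate c (1, 2))) (d := fun _ => 2 * q) (Q := fun _ => P) (fun _ => hP) 1
  rw [rem_st, er1, Finset.sum_pair (by decide), val_swap 1 0, st_succ_a, st_succ_c] at h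
  exact h

lemma rule2 {q : ℕ} {P : R} (hP : Cha S (2 * q) P) (a b c : ℕ) :
    ((2 * q - b - c : ℕ) : ℝ) * St S P a b c = St S P a (b + 1) c + St S P a b (c + 1) := by
  have h := val_rule (S := S) (List.replicate a ((0 : Fin 3), (1 : Fin 3)) ++ (List.replicate b (0, 2)
    ++ List.replicate c (1, 2))) (d := fun _ => 2 * q) (Q := fun _ => P) (fun _ => hP) 2
  rw [rem_st, er2, Finset.sum_pair (by decide), val_swap 2 0, val_swap 2 1, st_succ_b, st_succ_c] at h
  exact h

lemma solve {q : ℕ} {P : R} (hP : Cha S (2 * q) P) {a b c : ℕ} (ha : a ≤ q) (hb : b ≤ q)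
    (hc : c ≤ q) :
    St S P (a + 1) b c = ((q : ℝ) - a) * St S P a b c ∧
    St S P a (b + 1) c = ((q : ℝ) - b) * St S P a b c ∧
    St S P a b (c + 1) = ((q : ℝ) - c) * St S P a b c := by
  have h0 := rule0 hP a b c
  have h1 := rule1 hP a b c
  have h2 := rule2 hP a b c
  have e0 : ((2 * q - a - b : ℕ) : ℝ) = 2 * q - a - b := by
    rw [Nat.cast_sub (by omega), Nat.cast_sub (by omega)]
    push_cast
    ring
  have e1 : ((2 * q - a - c : ℕ) : ℝ) = 2 * q - a - c := by
    rw [Nat.cast_sub (by omega), Nat.cast_sub (by omega)]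
    push_cast
    ring
  have e2 : ((2 * q - b - c : ℕ) : ℝ) = 2 * q - b - c := by
    rw [Nat.cast_sub (by omega), Nat.cast_sub (by omega)]
    push_cast
    ring
  rw [e0] at h0
  rw [e1] at h1
  rw [e2] at h2
  refine ⟨?_, ?_, ?_⟩ <;> linarith

lemma indA {q : ℕ} {P : R} (hP : Cha S (2 * q) P) {b c : ℕ} (hb : b ≤ q) (hc : c ≤ q) :
    ∀ a, a ≤ q → ((q - a).factorial : ℝ) * St S P a b c = (q.factorial : ℝ) * St S P 0 b c
  | 0, _ => by simp
  | a + 1, h => by
      rw [(solve hP (show a ≤ q by omega) hb hc).1, ← indA hP hb hc a (by omega)]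
      obtain ⟨k, rfl⟩ : ∃ k, q = a + 1 + k := ⟨q - (a + 1), by omega⟩
      rw [show a + 1 + k - (a + 1) = k by omega, show a + 1 + k - a = k + 1 by omega,
        Nat.factorial_succ]
      push_cast
      ring

lemma indB {q : ℕ} {P : R} (hP : Cha S (2 * q) P) {a c : ℕ} (ha : a ≤ q) (hc : c ≤ q) :
    ∀ b, b ≤ q → ((q - b).factorial : ℝ) * St S P a b c = (q.factorial : ℝ) * St S P a 0 c
  | 0, _ => by simp
  | b + 1, h => by
      rw [(solve hP ha (show b ≤ q by omega) hc).2.1, ← indB hP ha hc b (by omega)]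
      obtain ⟨k, rfl⟩ : ∃ k, q = b + 1 + k := ⟨q - (b + 1), by omega⟩
      rw [show b + 1 + k - (b + 1) = k by omega, show b + 1 + k - b = k + 1 by omega,
        Nat.factorial_succ]
      push_cast
      ring

lemma indC {q : ℕ} {P : R} (hP : Cha S (2 * q) P) {a b : ℕ} (ha : a ≤ q) (hb : b ≤ q) :
    ∀ c, c ≤ q → ((q - c).factorial : ℝ) * St S P a b c = (q.factorial : ℝ) * St S P a b 0
  | 0, _ => by simp
  | c + 1, h => by
      rw [(solve hP ha hb (show c ≤ q by omega)).2.2, ← indC hP ha hb c (by omega)]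
      obtain ⟨k, rfl⟩ : ∃ k, q = c + 1 + k := ⟨q - (c + 1), by omega⟩
      rw [show c + 1 + k - (c + 1) = k by omega, show c + 1 + k - c = k + 1 by omega,
        Nat.factorial_succ]
      push_cast
      ring

lemma st_full {q : ℕ} {P : R} (hP : Cha S (2 * q) P) :
    St S P q q q = (q.factorial : ℝ) ^ 3 * E (P ^ 3) := by
  have h1 := indA hP le_rfl le_rfl q le_rfl
  have h2 := indB hP (Nat.zero_le q) le_rfl q le_rfl
  have h3 := indC hP (Nat.zero_le q) (Nat.zero_le q) q le_rfl
  rw [Nat.sub_self, Nat.factorial_zero, Nat.cast_one, one_mul] at h1 h2 h3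
  have h4 : St S P 0 0 0 = E (P ^ 3) := by
    simp [St, val]
  rw [h1, h2, h3, h4]
  ring

/-- **TRI.** -/
theorem tri : TriStatement := by
  intro S q P hP
  have h1 := val_left (S := S) (List.replicate q ((0 : Fin 3), (1 : Fin 3)) ++ (List.replicate q (0, 2)
    ++ List.replicate q (1, 2))) (fun _ => 2 * q) (fun _ => P) (fun _ => P) (fun _ => hP) (by
      intro u
      rw [rem_st]
      fin_cases u <;> simp <;> omega)
  have h2 : (List.replicate q ((0 : Fin 3), (1 : Fin 3)) ++ (List.replicate q (0, 2)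
      ++ List.replicate q (1, 2))).map (Prod.map inl inl)
      = List.replicate q ((0 : Fin 6), (1 : Fin 6)) ++ (List.replicate q (0, 2)
        ++ List.replicate q (1, 2)) := by
    rw [List.map_append, List.map_append, List.map_replicate, List.map_replicate,
      List.map_replicate]
    rfl
  have h3 : app (fun _ => P) (fun _ => P) = fun _ => P :=
    fin6_ext (fun u => app_inl _ _ u) (fun u => app_inr _ _ u)
  rw [h2, h3] at h1
  rw [h1]
  have h4 := st_full hP
  unfold St at h4
  rw [h4]
  have h5 : (∏ _u : Fin 3, P) = P ^ 3 := by simp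
  rw [h5]
  ring

end A602.S6.H24
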